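import Pool.Agent.Lib.FF76.LShape

set_option autoImplicit false

open Finset

namespace Pool.Agent.Lib.FF76

/-- The cells of the L-shape. -/
def cells (l h x y : ℕ) : Finset (ℕ × ℕ) :=
  (range l ×ˢ range h).filter (fun p => p.1 + x < l ∨ p.2 + y < h)

theorem mem_cells {l h x y : ℕ} {p : ℕ × ℕ} : p ∈ cells l h x y ↔ InL l h x y p.1 p.2 := by
  simp [cells, InL, and_assoc]

theorem card_cells {l h x y : ℕ} (hx : x ≤ l) (hy : y ≤ h) :
    (cells l h x y).card + x * y = l * h := by
  have h1 : ((range l ×ˢ range h).filter (fun p => ¬ (p.1 + x < l ∨ p.2 + y < h))) =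
      (Ico (l - x) l) ×ˢ (Ico (h - y) h) := by
    ext ⟨i, j⟩
    simp only [mem_filter, mem_product, mem_range, mem_Ico]
    omega
  have h2 := card_filter_add_card_filter_not (s := range l ×ˢ range h)
    (fun p : ℕ × ℕ => p.1 + x < l ∨ p.2 + y < h)
  rw [h1, card_product, card_product] at h2
  simp only [Nat.card_Ico, card_range] at h2
  have e1 : l - (l - x) = x := by omega
  have e2 : h - (h - y) = y := by omega
  rw [e1, e2] at h2
  exact h2

/-- Every element is a combination `i • a + j • b` with `i + j ≤ s`. -/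
def B2 {G : Type} [AddCommGroup G] (a b : G) (s : ℕ) : Prop :=
  ∀ g : G, ∃ i j : ℕ, i + j ≤ s ∧ i • a + j • b = g

/-- Shape data of an `s`-basis `{a, b}` of a group of order `n`. -/
theorem shape_of_basis {G : Type} [AddCommGroup G] [Finite G] {a b : G} {s : ℕ}
    (hB : B2 a b s) :
    ∃ l h x y : ℕ, Rel a b l h x y ∧ Nat.card G + x * y = l * h ∧ l + h ≤ s + 2 + x ∧
      l + h ≤ s + 2 + y := by
  classical
  obtain ⟨l, h, x, y, H, hu⟩ := exists_shape a b (na := addOrderOf a) (nb := addOrderOf b)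
    (addOrderOf_pos a) (addOrderOf_nsmul_eq_zero a) (addOrderOf_pos b)
    (addOrderOf_nsmul_eq_zero b)
  have hxl := H.xl
  have hyh := H.yh
  refine ⟨l, h, x, y, H, ?_, ?_, ?_⟩
  · have := Fintype.ofFinite G
    rw [Nat.card_eq_fintype_card, ← card_cells hxl.le hyh.le, ← Finset.card_univ]
    congr 1
    symm
    apply Finset.card_bij (fun p _ => p.1 • a + p.2 • b)
    · intro p _; exact mem_univ _
    · intro p hp q hq e
      have := hu _ _ _ _ (mem_cells.1 hp) (mem_cells.1 hq) e
      exact Prod.ext this.1 this.2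
    · intro g _
      obtain ⟨i, j, _, e⟩ := hB g
      obtain ⟨i', j', hL, _, e'⟩ := reduce H (i + j) j i rfl
      exact ⟨(i', j'), mem_cells.2 hL, by rw [← e, ← e']⟩
  · obtain ⟨i, j, hs, e⟩ := hB ((l - x - 1) • a + (h - 1) • b)
    obtain ⟨i', j', hL, hw, e'⟩ := reduce H (i + j) j i rfl
    have hL2 : InL l h x y (l - x - 1) (h - 1) := ⟨by omega, by omega, by omega⟩
    have := hu _ _ _ _ hL hL2 (by rw [e', e])
    omega
  · obtain ⟨i, j, hs, e⟩ := hB ((l - 1) • a + (h - y - 1) • b)
    obtain ⟨i', j', hL, hw, e'⟩ := reduce H (i + j) j i rfl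
    have hL2 : InL l h x y (l - 1) (h - y - 1) := ⟨by omega, by omega, by omega⟩
    have := hu _ _ _ _ hL hL2 (by rw [e', e])
    omega

/-- Conversely a pair with the relations of an L-shape that generates is a basis. -/
theorem basis_of_rel {G : Type} [AddCommGroup G] {a b : G} {l h x y s : ℕ}
    (H : Rel a b l h x y) (h1 : l + h ≤ s + 2 + x) (h2 : l + h ≤ s + 2 + y)
    (hgen : ∀ g : G, ∃ i j : ℕ, i • a + j • b = g) : B2 a b s := by
  intro g
  obtain ⟨i, j, e⟩ := hgen g
  obtain ⟨i', j', hL, _, e'⟩ := reduce H (i + j) j i rfl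
  have := H.xl
  have := H.yh
  obtain ⟨q1, q2, q3⟩ := hL
  exact ⟨i', j', by omega, by rw [e', e]⟩

/-- The quadratic identity. -/
theorem quad_identity (n l h x y d : ℤ) (e : n + x * y = l * h) :
    12 * n = (2 * d - (x + y - 2 * (l + h - d))) ^ 2 + 3 * (x - y) ^ 2 - 3 * (l - h) ^ 2 -
      (3 * (l + h) - 4 * d + 2 * (x + y - 2 * (l + h - d))) ^ 2 := by
  have : n = l * h - x * y := by linarith
  rw [this]
  ring

end Pool.Agent.Lib.FF76
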