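import Pool.Agent.Lib.FF76.Value

set_option autoImplicit false

open Finset

namespace Pool.Agent.Lib.FF76

open Pool.Agent.Lib.MP_ffcda7_co (IsBasis HasBasis f g)

theorem bound_aux {D K n m c t S : ℤ} (hm : 0 ≤ m) (hc : 0 ≤ c) (hK : 1 ≤ K)
    (hD : 40 * K + 27 * K ^ 2 + 2 ≤ D) (h1 : 4 * n ≤ S ^ 2 - 4 * (m * (m + c))) (h20 : 0 ≤ S)
    (h2 : S ≤ D + m) (h3 : (D - K) ^ 2 < 3 * n)
    (h4 : 12 * n ≤ (2 * D - t) ^ 2 + 3 * c ^ 2) (ht : t < 2 * D) : t ≤ 2 * K := by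
  have hK2 : 0 ≤ K ^ 2 := sq_nonneg K
  have hDK : 40 * K ≤ D := by linarith
  have hD0 : 0 < D := by linarith
  have h1' : 4 * n ≤ (D + m) ^ 2 - 4 * (m * (m + c)) := by
    have : S ^ 2 ≤ (D + m) ^ 2 := pow_le_pow_left₀ h20 h2 2
    linarith
  have hmc : 0 ≤ m * c := mul_nonneg hm hc
  have step1 : D ≤ 8 * m := by
    by_contra hcon
    push Not at hcon
    have a1 : (8 * (D + m)) ^ 2 ≤ (9 * D) ^ 2 := pow_le_pow_left₀ (by linarith) (by linarith) 2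
    have a2 : (39 * D) ^ 2 ≤ (40 * (D - K)) ^ 2 :=
      pow_le_pow_left₀ (by linarith) (by linarith) 2
    have a3 : 0 < D ^ 2 := by positivity
    have a4 : 4 * n ≤ (D + m) ^ 2 := by nlinarith [sq_nonneg m]
    nlinarith
  have step2 : c ≤ 6 * K := by
    by_contra hcon
    push Not at hcon
    have a1 : 12 * (m * c) ≤ 8 * (D * K) := by nlinarith [sq_nonneg (D - 3 * m)]
    have a2 : D * (6 * K) ≤ 8 * m * c := by
      have := mul_le_mul step1 hcon.le (by linarith) (by linarith : (0 : ℤ) ≤ 8 * m)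
      exact this
    have a3 : 0 < D * K := by positivity
    nlinarith
  by_contra hcon
  push Not at hcon
  have b1 : (2 * D - t) ^ 2 ≤ (2 * D - 2 * K - 1) ^ 2 :=
    pow_le_pow_left₀ (by linarith) (by linarith) 2
  have b2 : c ^ 2 ≤ (6 * K) ^ 2 := pow_le_pow_left₀ hc step2 2
  nlinarith

/-- If `3 n > (s + 2 - K)^2` and `s` is large then `t ≤ 2 K`. -/
theorem data_bounded {G : Type} [AddCommGroup G] [Finite G] {n s K : ℕ}
    (hG : Nat.card G = n) (hK : 1 ≤ K) (hs : 40 * K + 27 * K ^ 2 ≤ s)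
    (hn : (s + 2 - K) ^ 2 < 3 * n) (hB : HasBasis G 2 s) :
    ∃ t c : ℕ, ∃ R T : ℤ, t ≤ 2 * K ∧ c ≤ 2 * K ∧
      ((2 * (s + 2) : ℤ) - t) ^ 2 + 3 * (c : ℤ) ^ 2 - 12 * n = R ^ 2 + 3 * T ^ 2 := by
  obtain ⟨l, h, x, y, t, c, R, T, hxl, hyh, h1, h2, h3, hct, htl, hcc, hT, hR, e⟩ :=
    number_data hG hB
  have hKs : K ≤ s + 2 := by nlinarith
  have hn' : (((s : ℤ) + 2) - K) ^ 2 < 3 * n := by
    have : ((s + 2 - K : ℕ) : ℤ) = (s : ℤ) + 2 - K := by push_cast [Nat.cast_sub hKs]; ring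
    rw [← this]
    exact_mod_cast hn
  have hmin : ∃ m : ℤ, 0 ≤ m ∧ (x : ℤ) * y = m * (m + c) ∧ (l : ℤ) + h ≤ (s : ℤ) + 2 + m := by
    rcases Nat.le_total x y with hxy | hxy
    · refine ⟨x, by positivity, ?_, by exact_mod_cast h2⟩
      have : (c : ℤ) = y - x := by
        have h5 : (0 : ℤ) ≤ (y : ℤ) - x := by
          have : (x : ℤ) ≤ y := by exact_mod_cast hxy
          linarith
        have h6 : (c : ℤ) ^ 2 = ((y : ℤ) - x) ^ 2 := by rw [hcc]; ring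
        exact (pow_left_inj₀ (by positivity) h5 two_ne_zero).1 h6
      rw [this]; ring
    · refine ⟨y, by positivity, ?_, by exact_mod_cast h3⟩
      have : (c : ℤ) = x - y := by
        have h5 : (0 : ℤ) ≤ (x : ℤ) - y := by
          have : (y : ℤ) ≤ x := by exact_mod_cast hxy
          linarith
        exact (pow_left_inj₀ (by positivity) h5 two_ne_zero).1 hcc
      rw [this]; ring
  obtain ⟨m, hm0, hxy, hlh⟩ := hmin
  have e' : (n : ℤ) + x * y = l * h := by exact_mod_cast h1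
  have ht : (t : ℤ) ≤ 2 * K := by
    refine bound_aux (D := (s : ℤ) + 2) (K := K) (n := n) (m := m) (c := c) (t := t)
      (S := (l : ℤ) + h) hm0 (by positivity) (by exact_mod_cast hK) ?_ ?_ (by positivity) hlh
      hn' ?_ ?_
    · have : (40 * K + 27 * K ^ 2 : ℤ) ≤ s := by exact_mod_cast hs
      linarith
    · rw [← hxy]
      nlinarith [sq_nonneg ((l : ℤ) - h)]
    · nlinarith [sq_nonneg R, sq_nonneg T]
    · have : (t : ℤ) + (l + h) + 2 ≤ 2 * (s + 2) := by exact_mod_cast htl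
      have h7 : (0 : ℤ) ≤ (l : ℤ) + h := by positivity
      linarith
  have ht' : t ≤ 2 * K := by exact_mod_cast ht
  exact ⟨t, c, R, T, ht', by omega, e⟩

/-- Primes `2 mod 3` are inert. -/
theorem inert {p : ℕ} (hp : p.Prime) (h5 : 5 ≤ p) (h3 : p % 3 = 2) {R T : ℤ}
    (h : (p : ℤ) ∣ R ^ 2 + 3 * T ^ 2) : (p : ℤ) ∣ R ∧ (p : ℤ) ∣ T := by
  have : Fact p.Prime := ⟨hp⟩
  rw [← ZMod.intCast_zmod_eq_zero_iff_dvd] at h
  push_cast at h
  have hT : (T : ZMod p) = 0 := by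
    by_contra hT
    have h2 : (2 : ZMod p) ≠ 0 := by
      intro h2
      have : p ∣ 2 := (ZMod.natCast_eq_zero_iff _ _).1 (by exact_mod_cast h2)
      have := Nat.le_of_dvd (by norm_num) this
      omega
    have h3' : (3 : ZMod p) ≠ 0 := by
      intro h2
      have : p ∣ 3 := (ZMod.natCast_eq_zero_iff _ _).1 (by exact_mod_cast h2)
      have := Nat.le_of_dvd (by norm_num) this
      omega
    set w : ZMod p := (R : ZMod p) / T with hw
    have hw2 : w ^ 2 = -3 := by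
      rw [hw, div_pow, div_eq_iff (pow_ne_zero 2 hT)]
      linear_combination h
    set o : ZMod p := (w - 1) / 2 with ho
    have ho2 : o ^ 2 + o + 1 = 0 := by
      rw [ho]
      field_simp
      linear_combination hw2
    have ho3 : o ^ 3 = 1 := by linear_combination (o - 1) * ho2
    have ho0 : o ≠ 0 := by
      intro h0
      rw [h0] at ho2
      norm_num at ho2
    have hfer := ZMod.pow_card_sub_one_eq_one ho0
    obtain ⟨k, hk⟩ : ∃ k, p - 1 = 3 * k + 1 := ⟨p / 3, by omega⟩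
    rw [hk, pow_succ, pow_mul, ho3, one_pow, one_mul] at hfer
    rw [hfer] at ho2
    apply h3'
    linear_combination ho2
  have hR : (R : ZMod p) = 0 := by
    rw [hT] at h
    have : (R : ZMod p) ^ 2 = 0 := by linear_combination h
    exact pow_eq_zero_iff two_ne_zero |>.1 this
  exact ⟨(ZMod.intCast_zmod_eq_zero_iff_dvd _ _).1 hR,
    (ZMod.intCast_zmod_eq_zero_iff_dvd _ _).1 hT⟩

theorem exact_div {p : ℕ} (hp : p.Prime) (h5 : 5 ≤ p) (h3 : p % 3 = 2) {R T A : ℤ}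
    (h : A = R ^ 2 + 3 * T ^ 2) (hA : ((p : ℤ) ^ 2) ∣ A - p) : False := by
  have h1 : (p : ℤ) ∣ A := by
    have : (p : ℤ) ∣ A - p := dvd_trans (dvd_pow_self _ two_ne_zero) hA
    simpa using dvd_add this (dvd_refl (p : ℤ))
  obtain ⟨⟨r, hr⟩, ⟨u, hu⟩⟩ := inert hp h5 h3 (h ▸ h1)
  have h2 : ((p : ℤ) ^ 2) ∣ A := ⟨r ^ 2 + 3 * u ^ 2, by rw [h, hr, hu]; ring⟩
  have h4 : ((p : ℤ) ^ 2) ∣ p := by
    have := dvd_sub h2 hA
    simpa using this
  have h6 : p ^ 2 ∣ p := by exact_mod_cast h4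
  have h7 := Nat.le_of_dvd hp.pos h6
  nlinarith

/-- Solving one congruence. -/
theorem solve_one {p : ℕ} (hp : p.Prime) (h5 : 5 ≤ p) (A : ℤ) :
    ∃ r : ℕ, ((p : ℤ) ^ 2) ∣ A - 12 * r - p := by
  have hcop : IsCoprime (12 : ℤ) ((p : ℤ) ^ 2) := by
    have h12 : Nat.Coprime 12 (p ^ 2) := by
      apply Nat.Coprime.pow_right
      rw [Nat.coprime_comm, hp.coprime_iff_not_dvd]
      intro hd
      have hle := Nat.le_of_dvd (by norm_num) hd
      interval_cases p <;> revert hp hd <;> decide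
    have := Nat.isCoprime_iff_coprime.2 h12
    push_cast at this
    exact this
  obtain ⟨u, v, huv⟩ := hcop
  have hpos : (0 : ℤ) < (p : ℤ) ^ 2 := by have := hp.pos; positivity
  refine ⟨(((A - p) * u) % ((p : ℤ) ^ 2)).toNat, ?_⟩
  rw [Int.toNat_of_nonneg (Int.emod_nonneg _ hpos.ne')]
  have hdiv := Int.emod_add_mul_ediv ((A - p) * u) ((p : ℤ) ^ 2)
  refine ⟨(A - p) * v + 12 * (((A - p) * u) / ((p : ℤ) ^ 2)), ?_⟩
  linear_combination -(A - p) * huv - 12 * hdiv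

/-- Orders without basis in every long window. -/
theorem exists_bad (K : ℕ) (hK : 1 ≤ K) : ∃ P : ℕ, ∀ s, 40 * K + 27 * K ^ 2 ≤ s →
    ∃ n, 1 ≤ n ∧ n ≤ (s + 2 - K) ^ 2 / 3 + P ∧
      ∀ (G : Type) [AddCommGroup G] [Finite G], Nat.card G = n → ¬ HasBasis G 2 s := by
  classical
  obtain ⟨q, hq, hqp⟩ : ∃ q : ℕ → ℕ, StrictMono q ∧
      ∀ i, (q i).Prime ∧ q i % 3 = 2 ∧ 5 ≤ q i := by
    apply Nat.exists_strictMono_subsequence (P := fun n => n.Prime ∧ n % 3 = 2 ∧ 5 ≤ n)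
    intro N
    have hu : IsUnit (2 : ZMod 3) := by decide
    obtain ⟨p, hpN, hpp, hp2⟩ := Nat.forall_exists_prime_gt_and_eq_mod hu (N + 5)
    refine ⟨p, by omega, hpp, ?_, by omega⟩
    have h2 : ((p : ℕ) : ZMod 3) = ((2 : ℕ) : ZMod 3) := by rw [hp2]; rfl
    have := (ZMod.natCast_eq_natCast_iff' _ _ _).1 h2
    simpa using this
  set I : Finset (ℕ × ℕ) := range (2 * K + 1) ×ˢ range (2 * K + 1) with hI
  set Q : ℕ × ℕ → ℕ := fun i => q (Nat.pair i.1 i.2) ^ 2 with hQ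
  refine ⟨∏ i ∈ I, Q i, fun s hs => ?_⟩
  have hcong : ∀ i : ℕ × ℕ, ∃ r : ℕ, ((q (Nat.pair i.1 i.2) : ℤ) ^ 2) ∣
      (((2 * (s + 2) : ℤ) - i.1) ^ 2 + 3 * (i.2 : ℤ) ^ 2) - 12 * r - q (Nat.pair i.1 i.2) :=
    fun i => solve_one (hqp _).1 (hqp _).2.2 _
  choose r hr using hcong
  have hQ0 : ∀ i ∈ I, Q i ≠ 0 := fun i _ => pow_ne_zero 2 (hqp _).1.ne_zero
  have hpp : Set.Pairwise (I : Set (ℕ × ℕ)) (Function.onFun Nat.Coprime Q) := by
    intro i _ j _ hij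
    have : Nat.pair i.1 i.2 ≠ Nat.pair j.1 j.2 := by
      intro h
      rw [Nat.pair_eq_pair] at h
      exact hij (Prod.ext h.1 h.2)
    exact Nat.Coprime.pow _ _ ((Nat.coprime_primes (hqp _).1 (hqp _).1).2
      (fun h => this (hq.injective h)))
  obtain ⟨k, hk⟩ := Nat.chineseRemainderOfFinset r Q I hQ0 hpp
  set P := ∏ i ∈ I, Q i with hP
  have hPpos : 0 < P := Finset.prod_pos (fun i hi => Nat.pos_of_ne_zero (hQ0 i hi))
  set X := (s + 2 - K) ^ 2 / 3 with hX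
  set n := X + 1 + (k + P * (X + 1) - (X + 1)) % P with hn
  have hmod : n ≡ k [MOD P] := by
    have h1 : (k + P * (X + 1) - (X + 1)) % P ≡ k + P * (X + 1) - (X + 1) [MOD P] :=
      Nat.mod_modEq _ _
    have h2 : n ≡ X + 1 + (k + P * (X + 1) - (X + 1)) [MOD P] := Nat.ModEq.add_left _ h1
    have hle : X + 1 ≤ k + P * (X + 1) := by nlinarith
    have h3 : X + 1 + (k + P * (X + 1) - (X + 1)) = k + P * (X + 1) := by omega
    rw [h3] at h2
    refine h2.trans ?_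
    have h4 : k + P * (X + 1) ≡ k + 0 [MOD P] :=
      Nat.ModEq.add_left _ ((Nat.modEq_zero_iff_dvd).2 (Dvd.intro _ rfl))
    simpa using h4
  have hlt : (k + P * (X + 1) - (X + 1)) % P < P := Nat.mod_lt _ hPpos
  refine ⟨n, by omega, by omega, ?_⟩
  intro G _ _ hG hB
  have h3n : (s + 2 - K) ^ 2 < 3 * n := by
    have := Nat.div_add_mod ((s + 2 - K) ^ 2) 3
    have := Nat.mod_lt ((s + 2 - K) ^ 2) (show 0 < 3 by norm_num)
    omega
  obtain ⟨t, c, R, T, ht, hc, e⟩ := data_bounded hG hK hs h3n hB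
  have hmem : (t, c) ∈ I := by
    rw [hI, mem_product, mem_range, mem_range]; omega
  have h1 : n ≡ r (t, c) [MOD Q (t, c)] :=
    (hmod.of_dvd (Finset.dvd_prod_of_mem Q hmem)).trans (hk _ hmem)
  have h2 : ((q (Nat.pair t c) : ℤ) ^ 2) ∣ (n : ℤ) - r (t, c) := by
    have := (Nat.modEq_iff_dvd.1 h1.symm)
    simpa only [hQ, Nat.cast_pow] using this
  refine exact_div (hqp (Nat.pair t c)).1 (hqp _).2.2 (hqp _).2.1 e ?_
  have h3 := dvd_sub (hr (t, c)) (dvd_mul_of_dvd_right h2 12)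
  have h4 : ((2 * (s + 2) : ℤ) - t) ^ 2 + 3 * (c : ℤ) ^ 2 - 12 * n - (q (Nat.pair t c) : ℤ) =
      (((2 * (s + 2) : ℤ) - t) ^ 2 + 3 * (c : ℤ) ^ 2 - 12 * (r (t, c) : ℤ) -
        (q (Nat.pair t c) : ℤ)) - 12 * ((n : ℤ) - r (t, c)) := by ring
  rw [h4]
  exact h3

/-- Far below `f(2,s)` there are orders without two element `s`-bases. -/
theorem far_bad (C : ℕ) : ∃ S : ℕ, ∀ s, S ≤ s → ∃ n, 1 ≤ n ∧ n + C * s ≤ f 2 s ∧
    ∀ (G : Type) [AddCommGroup G] [Finite G], Nat.card G = n → ¬ HasBasis G 2 s := by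
  obtain ⟨P, hP⟩ := exists_bad (2 * C + 1) (by omega)
  refine ⟨40 * (2 * C + 1) + 27 * (2 * C + 1) ^ 2 + 3 * P + 6, fun s hs => ?_⟩
  obtain ⟨n, hn1, hn2, hn3⟩ := hP s (by omega)
  refine ⟨n, hn1, ?_, hn3⟩
  rw [f_two s (by omega)]
  have hle : 2 * C + 1 ≤ s + 2 := by nlinarith
  obtain ⟨u, hu⟩ : ∃ u, s + 2 = u + (2 * C + 1) := ⟨s + 2 - (2 * C + 1), by omega⟩
  have e1 : s + 2 - (2 * C + 1) = u := by omega
  rw [e1] at hn2
  have e2 : s ^ 2 + 4 * s + 4 = u ^ 2 + 2 * (2 * C + 1) * u + (2 * C + 1) ^ 2 := by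
    have : (s + 2) ^ 2 = s ^ 2 + 4 * s + 4 := by ring
    rw [← this, hu]; ring
  have e3 : 3 * (C * s) + 3 * P + 6 ≤ 2 * (2 * C + 1) * u + (2 * C + 1) ^ 2 := by
    have hs' : s + 2 = u + (2 * C + 1) := hu
    nlinarith
  have h5 : n ≤ u ^ 2 / 3 + P := hn2
  have h6 : 3 * (u ^ 2 / 3) ≤ u ^ 2 := Nat.mul_div_le _ _
  omega

theorem far_bad' (C : ℕ) : ∃ S : ℕ, ∀ s, S ≤ s → ∃ n, g 2 s < n ∧ n + C * s ≤ f 2 s ∧
    ∀ (G : Type) [AddCommGroup G] [Finite G], Nat.card G = n → ¬ HasBasis G 2 s := by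
  obtain ⟨S, hS⟩ := far_bad C
  refine ⟨S, fun s hs => ?_⟩
  obtain ⟨n, hn1, hn2, hn3⟩ := hS s hs
  have : NeZero n := ⟨by omega⟩
  exact ⟨n, g_lt_of_bad hn1 (hn3 (ZMod n) (Nat.card_zmod n)), hn2, hn3⟩

/-- The gap `f(2,s) - g(2,s)` is eventually larger than `C s`. -/
theorem gap (C : ℕ) : ∃ S : ℕ, ∀ s, S ≤ s → g 2 s + C * s ≤ f 2 s := by
  obtain ⟨S, hS⟩ := far_bad C
  refine ⟨S, fun s hs => ?_⟩
  obtain ⟨n, hn1, hn2, hn3⟩ := hS s hs
  have : NeZero n := ⟨by omega⟩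
  have := g_lt_of_bad hn1 (hn3 (ZMod n) (Nat.card_zmod n))
  omega

end Pool.Agent.Lib.FF76
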