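import Mathlib

set_option autoImplicit false

/-! L-shapes for double loop digraphs: an abelian group generated by two elements `a`, `b`. -/

namespace Pool.Agent.Lib.FF76

variable {G : Type} [AddCommGroup G]

/-- The L-shape of parameters `l, h, x, y`. -/
def InL (l h x y i j : ℕ) : Prop := i < l ∧ j < h ∧ (i + x < l ∨ j + y < h)

/-- The relations of an L-shape. -/
structure Rel (a b : G) (l h x y : ℕ) : Prop where
  ra : l • a = y • b
  rb : h • b = x • a
  yl : y < l
  xh : x ≤ h
  xl : x < l
  yh : y < h

/-- Reduction into the L-shape. -/
theorem reduce {a b : G} {l h x y : ℕ} (H : Rel a b l h x y) :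
    ∀ w j i : ℕ, i + j = w → ∃ i' j', InL l h x y i' j' ∧ i' + j' ≤ w ∧
      i' • a + j' • b = i • a + j • b := by
  intro w
  induction w using Nat.strong_induction_on with
  | _ w IH =>
    intro j
    induction j using Nat.strong_induction_on with
    | _ j IHj =>
      intro i hij
      have hl : 0 < l := by have := H.xl; omega
      have hh : 0 < h := by have := H.yh; omega
      by_cases h1 : l ≤ i
      · obtain ⟨i', j', hL, hw, he⟩ := IH (i - l + (j + y)) (by have := H.yl; omega)
          (j + y) (i - l) rfl
        refine ⟨i', j', hL, by have := H.yl; omega, ?_⟩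
        rw [he]
        have : i • a = (i - l) • a + l • a := by rw [← add_nsmul]; congr 1; omega
        rw [this, H.ra, add_nsmul]
        abel
      · by_cases h2 : h ≤ j
        · rcases Nat.lt_or_ge x h with hx | hx
          · obtain ⟨i', j', hL, hw, he⟩ := IH (i + x + (j - h)) (by omega) (j - h) (i + x) rfl
            refine ⟨i', j', hL, by omega, ?_⟩
            rw [he]
            have : j • b = (j - h) • b + h • b := by rw [← add_nsmul]; congr 1; omega
            rw [this, H.rb, add_nsmul]
            abel
          · obtain ⟨i', j', hL, hw, he⟩ := IHj (j - h) (by omega) (i + x)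
              (by have := H.xh; omega)
            refine ⟨i', j', hL, hw, ?_⟩
            rw [he]
            have : j • b = (j - h) • b + h • b := by rw [← add_nsmul]; congr 1; omega
            rw [this, H.rb, add_nsmul]
            abel
        · by_cases h3 : i + x < l ∨ j + y < h
          · exact ⟨i, j, ⟨by omega, by omega, h3⟩, by omega, rfl⟩
          · push Not at h3
            have e0 : (l - x) • a + (h - y) • b = 0 := by
              have e1 : l • a = (l - x) • a + x • a := by
                rw [← add_nsmul]; congr 1; have := H.xl; omega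
              have e2 : h • b = (h - y) • b + y • b := by
                rw [← add_nsmul]; congr 1; have := H.yh; omega
              have e3 : l • a + h • b = y • b + x • a := by rw [H.ra, H.rb]
              rw [e1, e2] at e3
              have e4 : (l - x) • a + (h - y) • b + (x • a + y • b) = 0 + (x • a + y • b) := by
                rw [zero_add]
                calc (l - x) • a + (h - y) • b + (x • a + y • b)
                    = (l - x) • a + x • a + ((h - y) • b + y • b) := by abel
                  _ = y • b + x • a := e3
                  _ = x • a + y • b := by abel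
              exact add_right_cancel e4
            obtain ⟨i', j', hL, hw, he⟩ := IH (i - (l - x) + (j - (h - y)))
              (by have := H.xl; omega) (j - (h - y)) (i - (l - x)) rfl
            refine ⟨i', j', hL, by omega, ?_⟩
            rw [he]
            have e1 : i • a = (i - (l - x)) • a + (l - x) • a := by
              rw [← add_nsmul]; congr 1; omega
            have e2 : j • b = (j - (h - y)) • b + (h - y) • b := by
              rw [← add_nsmul]; congr 1; omega
            calc (i - (l - x)) • a + (j - (h - y)) • b
                = (i - (l - x)) • a + (j - (h - y)) • b + ((l - x) • a + (h - y) • b) := by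
                  rw [e0, add_zero]
              _ = i • a + j • b := by rw [e1, e2]; abel

/-- Existence of the L-shape for torsion elements, with uniqueness of representations. -/
theorem exists_shape (a b : G) {na nb : ℕ} (hna : 1 ≤ na) (ha : na • a = 0) (hnb : 1 ≤ nb)
    (hb : nb • b = 0) :
    ∃ l h x y : ℕ, Rel a b l h x y ∧
      ∀ i j i' j', InL l h x y i j → InL l h x y i' j' →
        i • a + j • b = i' • a + j' • b → i = i' ∧ j = j' := by
  classical
  have exh : ∃ h, 1 ≤ h ∧ ∃ x, x ≤ h ∧ h • b = x • a := ⟨nb, hnb, 0, by omega, by simp [hb]⟩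
  have exl : ∃ l, 1 ≤ l ∧ ∃ y, y < l ∧ l • a = y • b := ⟨na, hna, 0, by omega, by simp [ha]⟩
  obtain ⟨h1, exx⟩ := Nat.find_spec exh
  obtain ⟨l1, exy⟩ := Nat.find_spec exl
  have minh : ∀ k, 1 ≤ k → ∀ z, z ≤ k → k • b = z • a → Nat.find exh ≤ k := fun k hk z hz e =>
    Nat.find_min' exh ⟨hk, z, hz, e⟩
  have minl : ∀ k, 1 ≤ k → ∀ z, z < k → k • a = z • b → Nat.find exl ≤ k := fun k hk z hz e =>
    Nat.find_min' exl ⟨hk, z, hz, e⟩
  obtain ⟨hx1, hx2⟩ := Nat.find_spec exx
  obtain ⟨hy1, hy2⟩ := Nat.find_spec exy
  have minx : ∀ z, z ≤ Nat.find exh → Nat.find exh • b = z • a → Nat.find exx ≤ z :=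
    fun z hz e => Nat.find_min' exx ⟨hz, e⟩
  have miny : ∀ z, z < Nat.find exl → Nat.find exl • a = z • b → Nat.find exy ≤ z :=
    fun z hz e => Nat.find_min' exy ⟨hz, e⟩
  generalize Nat.find exx = x at *
  generalize Nat.find exy = y at *
  generalize Nat.find exh = h at *
  generalize Nat.find exl = l at *
  have sub_a : ∀ {p q : ℕ}, q ≤ p → (p - q) • a = p • a - q • a := fun {p q} hpq => by
    rw [eq_sub_iff_add_eq, ← add_nsmul]; congr 1; omega
  have sub_b : ∀ {p q : ℕ}, q ≤ p → (p - q) • b = p • b - q • b := fun {p q} hpq => by
    rw [eq_sub_iff_add_eq, ← add_nsmul]; congr 1; omega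
  have hxl : x < l := by
    by_contra hc
    push Not at hc
    have e : (h - y) • b = (x - l) • a := by
      rw [sub_b (by omega), sub_a hc, hx2, hy2]
    have := minh (h - y) (by omega) (x - l) (by omega) e
    have hy0 : y = 0 := by omega
    subst hy0
    have := minx (x - l) (by omega) (by simpa using e)
    omega
  have hyh : y < h := by
    by_contra hc
    push Not at hc
    have e : (l - x) • a = (y - h) • b := by
      rw [sub_a (by omega), sub_b hc, hx2, hy2]
    have := minl (l - x) (by omega) (y - h) (by omega) e
    have hx0 : x = 0 := by omega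
    subst hx0
    have := miny (y - h) (by omega) (by simpa using e)
    omega
  refine ⟨l, h, x, y, ⟨hy2, hx2, hy1, hx1, hxl, hyh⟩, ?_⟩
  -- no nonzero nonnegative vector of the lattice in the L-shape
  have key : ∀ p q : ℕ, InL l h x y p q → p • a + q • b = 0 → p = 0 ∧ q = 0 := by
    intro p q hL e
    obtain ⟨hp, hq, hor⟩ := hL
    rcases Nat.eq_zero_or_pos q with hq0 | hq0
    · subst hq0
      refine ⟨?_, rfl⟩
      by_contra hp0
      have := minl p (by omega) 0 (by omega) (by simpa using e)
      omega
    · rcases Nat.eq_zero_or_pos p with hp0 | hp0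
      · subst hp0
        have := minh q (by omega) 0 (by omega) (by simpa using e)
        omega
      · exfalso
        have e1 : (l - p) • a = (y + q) • b := by
          rw [sub_a hp.le, hy2, add_nsmul, sub_eq_iff_eq_add]
          have : q • b = - (p • a) := by rw [eq_neg_iff_add_eq_zero, add_comm]; exact e
          rw [this]; abel
        have e2 : (p + x) • a = (h - q) • b := by
          rw [sub_b hq.le, hx2, add_nsmul]
          have : q • b = - (p • a) := by rw [eq_neg_iff_add_eq_zero, add_comm]; exact e
          rw [this]; abel
        have c1 : l - p ≤ y + q := by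
          by_contra hc
          have := minl (l - p) (by omega) (y + q) (by omega) e1
          omega
        have c2 := minh (y + q) (by omega) (l - p) c1 e1.symm
        have c3 : h - q < p + x := by
          by_contra hc
          have := minh (h - q) (by omega) (p + x) (by omega) e2.symm
          omega
        have c4 := minl (p + x) (by omega) (h - q) c3 e2
        omega
  have mono : ∀ i j p q, InL l h x y i j → p ≤ i → q ≤ j → InL l h x y p q := by
    intro i j p q hL hp hq
    obtain ⟨h1, h2, h3⟩ := hL
    refine ⟨by omega, by omega, by omega⟩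
  intro i j i' j' hL hL' e
  rcases Nat.le_total i i' with hi | hi <;> rcases Nat.le_total j j' with hj | hj
  · have e' : (i' - i) • a + (j' - j) • b = 0 := by
      rw [sub_a hi, sub_b hj]
      have : i' • a - i • a + (j' • b - j • b) = (i' • a + j' • b) - (i • a + j • b) := by abel
      rw [this, e, sub_self]
    have := key _ _ (mono _ _ _ _ hL' (Nat.sub_le _ _) (Nat.sub_le _ _)) e'
    omega
  · -- i ≤ i', j' ≤ j
    have e' : (i' - i) • a = (j - j') • b := by
      rw [sub_a hi, sub_b hj, sub_eq_sub_iff_add_eq_add]
      rw [← e]; abel
    obtain ⟨p1, p2, p3⟩ := hL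
    obtain ⟨q1, q2, q3⟩ := hL'
    by_cases h0 : i' - i = 0 ∧ j - j' = 0
    · omega
    · exfalso
      rcases Nat.lt_or_ge (j - j') (i' - i) with hc | hc
      · have := minl (i' - i) (by omega) (j - j') hc e'
        omega
      · have := minh (j - j') (by omega) (i' - i) hc e'.symm
        omega
  · have e' : (i - i') • a = (j' - j) • b := by
      rw [sub_a hi, sub_b hj, sub_eq_sub_iff_add_eq_add]
      rw [e]; abel
    obtain ⟨p1, p2, p3⟩ := hL
    obtain ⟨q1, q2, q3⟩ := hL'
    by_cases h0 : i - i' = 0 ∧ j' - j = 0
    · omega
    · exfalso
      rcases Nat.lt_or_ge (j' - j) (i - i') with hc | hc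
      · have := minl (i - i') (by omega) (j' - j) hc e'
        omega
      · have := minh (j' - j) (by omega) (i - i') hc e'.symm
        omega
  · have e' : (i - i') • a + (j - j') • b = 0 := by
      rw [sub_a hi, sub_b hj]
      have : i • a - i' • a + (j • b - j' • b) = (i • a + j • b) - (i' • a + j' • b) := by abel
      rw [this, e, sub_self]
    have := key _ _ (mono _ _ _ _ hL (Nat.sub_le _ _) (Nat.sub_le _ _)) e'
    omega

end Pool.Agent.Lib.FF76
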