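import Pool.Agent.Lib.FF76.Value

set_option autoImplicit false

open Finset

namespace Pool.Agent.Lib.FF76

open Pool.Agent.Lib.MP_ffcda7_co (IsBasis HasBasis f g)

/-- The bit mask of all values `i a + j b mod n`, `i + j ≤ s`. -/
def mask (n s a b : ℕ) : ℕ :=
  (List.range (s + 1)).foldl (fun m i => (List.range (s + 1 - i)).foldl
    (fun m' j => m' ||| (1 <<< ((i * a + j * b) % n))) m) 0

theorem testBit_foldl {α : Type} (L : List α) (F : α → ℕ) (m r : ℕ) :
    (L.foldl (fun m' v => m' ||| (1 <<< (F v))) m).testBit r = true ↔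
      m.testBit r = true ∨ ∃ v ∈ L, F v = r := by
  induction L generalizing m with
  | nil => simp
  | cons v L ih =>
    rw [List.foldl_cons, ih]
    simp only [Nat.testBit_or, Bool.or_eq_true, List.mem_cons, exists_eq_or_imp, or_assoc]
    rw [Nat.one_shiftLeft, Nat.testBit_two_pow, decide_eq_true_iff]

theorem testBit_mask_aux (n s a b : ℕ) (L : List ℕ) (m r : ℕ) :
    (L.foldl (fun m i => (List.range (s + 1 - i)).foldl
      (fun m' j => m' ||| (1 <<< ((i * a + j * b) % n))) m) m).testBit r = true ↔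
      m.testBit r = true ∨ ∃ i ∈ L, ∃ j, i + j < s + 1 ∧ (i * a + j * b) % n = r := by
  induction L generalizing m with
  | nil => simp
  | cons i L ih =>
    rw [List.foldl_cons, ih, testBit_foldl]
    simp only [List.mem_cons, exists_eq_or_imp, List.mem_range, or_assoc]
    have : (∃ v, v < s + 1 - i ∧ (i * a + v * b) % n = r) ↔
        (∃ j, i + j < s + 1 ∧ (i * a + j * b) % n = r) := by
      constructor
      · rintro ⟨v, h1, h2⟩; exact ⟨v, by omega, h2⟩
      · rintro ⟨v, h1, h2⟩; exact ⟨v, by omega, h2⟩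
    rw [this]

theorem testBit_mask (n s a b r : ℕ) :
    (mask n s a b).testBit r = true ↔ ∃ i j, i + j ≤ s ∧ (i * a + j * b) % n = r := by
  rw [mask, testBit_mask_aux]
  simp only [Nat.zero_testBit, Bool.false_eq_true, List.mem_range, false_or]
  constructor
  · rintro ⟨i, _, j, h1, h2⟩; exact ⟨i, j, by omega, h2⟩
  · rintro ⟨i, j, h1, h2⟩; exact ⟨i, by omega, j, by omega, h2⟩

theorem val_combo {n : ℕ} [NeZero n] (a b : ZMod n) (i j : ℕ) :
    (i • a + j • b).val = (i * a.val + j * b.val) % n := by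
  have : (i • a + j • b) = ((i * a.val + j * b.val : ℕ) : ZMod n) := by
    push_cast
    rw [ZMod.natCast_zmod_val, ZMod.natCast_zmod_val, nsmul_eq_mul, nsmul_eq_mul]
  rw [this, ZMod.val_natCast]

theorem all_ones {n k : ℕ} (h : ∀ r < n, k.testBit r = true) : 2 ^ n - 1 ≤ k := by
  have : (2 ^ n - 1) ||| k = k := by
    apply Nat.eq_of_testBit_eq
    intro r
    rw [Nat.testBit_or, Nat.testBit_two_pow_sub_one]
    by_cases hr : r < n
    · simp [hr, h r hr]
    · simp [hr]
  calc 2 ^ n - 1 ≤ (2 ^ n - 1) ||| k := Nat.left_le_or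
    _ = k := this

/-- Positive check. -/
theorem good_of_mask {n s : ℕ} (hn : 1 ≤ n) (a b : ℕ) (ha : a < n) (hb : b < n)
    (h : mask n s a b = 2 ^ n - 1) : HasBasis (ZMod n) 2 s := by
  have : NeZero n := ⟨by omega⟩
  refine hasBasis_two_iff.2 ⟨(a : ZMod n), (b : ZMod n), fun q => ?_⟩
  have h1 : (mask n s a b).testBit q.val = true := by
    rw [h, Nat.testBit_two_pow_sub_one]
    simpa using ZMod.val_lt q
  obtain ⟨i, j, h2, h3⟩ := (testBit_mask _ _ _ _ _).1 h1
  refine ⟨i, j, h2, ?_⟩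
  apply ZMod.val_injective n
  rw [val_combo, ZMod.val_natCast_of_lt ha, ZMod.val_natCast_of_lt hb, h3]

/-- Negative check. -/
theorem bad_of_mask {n s : ℕ} (hn : 1 ≤ n)
    (h : ((List.range n).all fun a => (List.range n).all fun b =>
      decide (mask n s a b < 2 ^ n - 1)) = true) : ¬ HasBasis (ZMod n) 2 s := by
  have : NeZero n := ⟨by omega⟩
  intro hB
  obtain ⟨a, b, hab⟩ := hasBasis_two_iff.1 hB
  rw [List.all_eq_true] at h
  have h1 := h a.val (List.mem_range.2 (ZMod.val_lt a))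
  rw [List.all_eq_true] at h1
  have h2 := h1 b.val (List.mem_range.2 (ZMod.val_lt b))
  rw [decide_eq_true_iff] at h2
  have h3 : 2 ^ n - 1 ≤ mask n s a.val b.val := by
    apply all_ones
    intro r hr
    rw [testBit_mask]
    obtain ⟨i, j, h4, h5⟩ := hab (r : ZMod n)
    refine ⟨i, j, h4, ?_⟩
    rw [← val_combo, h5, ZMod.val_natCast_of_lt hr]
  omega

theorem hasBasis_mono {G : Type} [AddCommGroup G] {s s' : ℕ} (hs : s ≤ s')
    (h : HasBasis G 2 s) : HasBasis G 2 s' := by
  obtain ⟨a, b, hab⟩ := hasBasis_two_iff.1 h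
  refine hasBasis_two_iff.2 ⟨a, b, fun q => ?_⟩
  obtain ⟨i, j, h1, h2⟩ := hab q
  exact ⟨i, j, by omega, h2⟩

theorem bad6 : ¬ HasBasis (ZMod 20) 2 6 := bad_of_mask (by norm_num) (by decide +kernel)

theorem bad8 : ¬ HasBasis (ZMod 32) 2 8 := bad_of_mask (by norm_num) (by decide +kernel)

/-- Table of second generators (the first one is `1`). -/
def tab : List ℕ := [0, 0, 0, 2, 2, 2, 2, 3, 2, 3, 3, 3, 3, 3, 4, 7, 2, 2, 2, 3, 3, 3, 3, 3, 3, 3, 4, 4, 4, 4, 4, 5, 5, 5, 6, 11, 11, 9, 15, 12]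

theorem good_of_check {N s : ℕ} (h : ((List.range N).all fun k =>
      decide (mask (k + 1) s (1 % (k + 1)) (tab.getD k 0 % (k + 1)) = 2 ^ (k + 1) - 1)) = true) :
    ∀ n, 1 ≤ n → n ≤ N → HasBasis (ZMod n) 2 s := by
  intro n hn hN
  rw [List.all_eq_true] at h
  have h1 := h (n - 1) (List.mem_range.2 (by omega))
  rw [decide_eq_true_iff] at h1
  have e : n - 1 + 1 = n := by omega
  rw [e] at h1
  exact good_of_mask hn _ _ (Nat.mod_lt _ (by omega)) (Nat.mod_lt _ (by omega)) h1

theorem g_eq_f_of_check {s : ℕ} (hs : 2 ≤ s) (h : ((List.range ((s ^ 2 + 4 * s + 3) / 3)).all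
      fun k => decide (mask (k + 1) s (1 % (k + 1)) (tab.getD k 0 % (k + 1)) =
        2 ^ (k + 1) - 1)) = true) : g 2 s = f 2 s := by
  apply le_antisymm (g_le_f s hs)
  rw [f_two s hs]
  apply le_csSup
  · refine ⟨(s ^ 2 + 4 * s + 3) / 3, ?_⟩
    intro M hM
    by_contra hc
    push Not at hc
    have hB := hM ((s ^ 2 + 4 * s + 3) / 3 + 1) (by omega) (by omega)
    have := upper hs (by omega) hB
    have h2 : (s + 2) ^ 2 = s ^ 2 + 4 * s + 4 := by ring
    omega
  · exact good_of_check h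

theorem g_eq_f_small (s : ℕ) (hs : s ∈ ({2, 3, 4, 5, 9} : Finset ℕ)) : g 2 s = f 2 s := by
  simp only [mem_insert, mem_singleton] at hs
  rcases hs with rfl | rfl | rfl | rfl | rfl
  · exact g_eq_f_of_check (by norm_num) (by decide +kernel)
  · exact g_eq_f_of_check (by norm_num) (by decide +kernel)
  · exact g_eq_f_of_check (by norm_num) (by decide +kernel)
  · exact g_eq_f_of_check (by norm_num) (by decide +kernel)
  · exact g_eq_f_of_check (by norm_num) (by decide +kernel)

/-- The equality cases. -/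
theorem g_eq_f_iff (s : ℕ) (hs : 2 ≤ s) :
    g 2 s = f 2 s ↔ s ∈ ({2, 3, 4, 5, 9} : Finset ℕ) := by
  refine ⟨fun h => ?_, g_eq_f_small s⟩
  by_contra hc
  simp only [mem_insert, mem_singleton, not_or] at hc
  have hcase : (10 ≤ s ∨ s = 7) ∨ s = 6 ∨ s = 8 := by omega
  rcases hcase with h1 | rfl | rfl
  · exact absurd h (g_lt_f_large s h1).ne
  · have := g_lt_of_bad (by norm_num) bad6
    rw [h, f_two 6 (by norm_num)] at this
    norm_num at this
  · have := g_lt_of_bad (by norm_num) bad8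
    rw [h, f_two 8 (by norm_num)] at this
    norm_num at this

end Pool.Agent.Lib.FF76
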