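import Pool.Agent.Lib.FF76.Count
import Pool.Agent.Lib.MP_ffcda7_co.Defs

set_option autoImplicit false

open Finset

namespace Pool.Agent.Lib.FF76

open Pool.Agent.Lib.MP_ffcda7_co (IsBasis HasBasis f g)

theorem hasBasis_two_iff {G : Type} [AddCommGroup G] {s : ℕ} :
    HasBasis G 2 s ↔ ∃ a b : G, B2 a b s := by
  classical
  constructor
  · rintro ⟨A, hA, hB⟩
    have h3 : A.card = 0 ∨ A.card = 1 ∨ A.card = 2 := by omega
    rcases h3 with h0 | h1 | h2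
    · rw [card_eq_zero] at h0
      subst h0
      refine ⟨0, 0, fun x => ⟨0, 0, by omega, ?_⟩⟩
      obtain ⟨c, _, hc⟩ := hB x
      simpa using hc
    · obtain ⟨a, rfl⟩ := card_eq_one.1 h1
      refine ⟨a, a, fun x => ?_⟩
      obtain ⟨c, hs, hc⟩ := hB x
      exact ⟨c a, 0, by simpa using hs, by simpa using hc⟩
    · obtain ⟨a, b, hab, rfl⟩ := card_eq_two.1 h2
      refine ⟨a, b, fun x => ?_⟩
      obtain ⟨c, hs, hc⟩ := hB x
      rw [sum_pair hab] at hs hc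
      exact ⟨c a, c b, hs, hc⟩
  · rintro ⟨a, b, hB⟩
    by_cases hab : a = b
    · subst hab
      refine ⟨{a}, by simp, fun x => ?_⟩
      obtain ⟨i, j, hs, hc⟩ := hB x
      exact ⟨fun _ => i + j, by simpa using hs, by simp [add_nsmul, hc]⟩
    · refine ⟨{a, b}, by rw [card_pair hab], fun x => ?_⟩
      obtain ⟨i, j, hs, hc⟩ := hB x
      refine ⟨fun z => if z = a then i else j, ?_, ?_⟩
      · rw [sum_pair hab]; simpa [Ne.symm hab] using hs
      · rw [sum_pair hab]; simpa [Ne.symm hab] using hc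

/-- Integer shape data of a two element `s`-basis of a group of order `n`. -/
theorem shape_data {G : Type} [AddCommGroup G] [Finite G] {n s : ℕ} (hn : Nat.card G = n)
    (hB : HasBasis G 2 s) :
    ∃ a b : G, ∃ l h x y : ℕ, Rel a b l h x y ∧ B2 a b s ∧ n + x * y = l * h ∧
      l + h ≤ s + 2 + x ∧ l + h ≤ s + 2 + y := by
  obtain ⟨a, b, hab⟩ := hasBasis_two_iff.1 hB
  obtain ⟨l, h, x, y, H, h1, h2, h3⟩ := shape_of_basis hab
  rw [hn] at h1
  exact ⟨a, b, l, h, x, y, H, hab, h1, h2, h3⟩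

/-- Number data: `t`, `c`, `R`, `T`. -/
theorem number_data {G : Type} [AddCommGroup G] [Finite G] {n s : ℕ} (hn : Nat.card G = n)
    (hB : HasBasis G 2 s) :
    ∃ l h x y t c : ℕ, ∃ R T : ℤ, x < l ∧ y < h ∧ n + x * y = l * h ∧
      l + h ≤ s + 2 + x ∧ l + h ≤ s + 2 + y ∧
      c ≤ t ∧ t + (l + h) + 2 ≤ 2 * (s + 2) ∧ (c : ℤ) ^ 2 = ((x : ℤ) - y) ^ 2 ∧
      T = (l : ℤ) - h ∧ R = 3 * ((l : ℤ) + h) - 4 * (s + 2) + 2 * t ∧
      ((2 * (s + 2) : ℤ) - t) ^ 2 + 3 * (c : ℤ) ^ 2 - 12 * n = R ^ 2 + 3 * T ^ 2 := by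
  obtain ⟨a, b, l, h, x, y, H, _, h1, h2, h3⟩ := shape_data hn hB
  have hxl := H.xl
  have hyh := H.yh
  obtain ⟨t, ht⟩ : ∃ t : ℕ, (t : ℤ) = (x : ℤ) + y - 2 * ((l : ℤ) + h - (s + 2)) :=
    ⟨((x : ℤ) + y - 2 * ((l : ℤ) + h - (s + 2))).toNat, by
      rw [Int.toNat_of_nonneg]; omega⟩
  obtain ⟨c, hc, hc'⟩ : ∃ c : ℕ, (c : ℤ) ^ 2 = ((x : ℤ) - y) ^ 2 ∧ (c : ℤ) ≤ t := by
    refine ⟨((x : ℤ) - y).natAbs, Int.natAbs_sq _, ?_⟩
    omega
  refine ⟨l, h, x, y, t, c, 3 * ((l : ℤ) + h) - 4 * (s + 2) + 2 * t, (l : ℤ) - h, hxl, hyh,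
    h1, h2, h3, by exact_mod_cast hc', by omega, hc, rfl, rfl, ?_⟩
  have e : (n : ℤ) + x * y = l * h := by exact_mod_cast h1
  have := quad_identity (n : ℤ) l h x y (s + 2) e
  rw [this, hc, ht]
  ring

/-- The set in the definition of `g` is bounded as soon as one order is bad. -/
theorem g_lt_of_bad {n s : ℕ} (hn : 1 ≤ n) (hB : ¬ HasBasis (ZMod n) 2 s) : g 2 s < n := by
  have h1 : g 2 s ≤ n - 1 := by
    apply csSup_le'
    intro N hN
    by_contra hc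
    exact hB (hN n hn (by omega))
  omega

/-- Upper bound for orders: `3 n ≤ (s+2)^2 - 1`. -/
theorem upper {n s : ℕ} (hs : 2 ≤ s) (hn : 1 ≤ n) (hB : HasBasis (ZMod n) 2 s) :
    3 * n + 1 ≤ (s + 2) ^ 2 := by
  have : NeZero n := ⟨by omega⟩
  obtain ⟨a, b, l, h, x, y, H, hab, h1, h2, h3⟩ := shape_data (Nat.card_zmod n) hB
  have hxl := H.xl
  have hyh := H.yh
  obtain ⟨t, ht⟩ : ∃ t : ℕ, (t : ℤ) = (x : ℤ) + y - 2 * ((l : ℤ) + h - (s + 2)) :=
    ⟨((x : ℤ) + y - 2 * ((l : ℤ) + h - (s + 2))).toNat, by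
      rw [Int.toNat_of_nonneg]; omega⟩
  have e : (n : ℤ) + x * y = l * h := by exact_mod_cast h1
  have hq := quad_identity (n : ℤ) l h x y (s + 2) e
  rw [← ht] at hq
  have hc : ((x : ℤ) - y) ^ 2 ≤ (t : ℤ) ^ 2 := by
    rw [sq_le_sq]
    rw [abs_le, abs_of_nonneg (by positivity : (0 : ℤ) ≤ t)]
    constructor <;> (rw [ht]; omega)
  by_contra hcon
  have hcon' : ((s : ℤ) + 2) ^ 2 ≤ 3 * n := by
    have : (s + 2) ^ 2 ≤ 3 * n := by omega
    exact_mod_cast this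
  -- `t < s + 2`
  have hlh : s + 2 < l + h := by
    by_contra hc2
    have h4 : (l : ℤ) + h ≤ s + 2 := by omega
    have h5 : (4 : ℤ) * (l * h) ≤ (s + 2) ^ 2 := by nlinarith [sq_nonneg ((l : ℤ) - h)]
    have h6 : (0 : ℤ) ≤ x * y := by positivity
    have h7 : (0 : ℤ) < n := by exact_mod_cast hn
    nlinarith
  have htd : (t : ℤ) + 1 ≤ s + 2 := by omega
  have ht0 : (t : ℤ) = 0 := by
    by_contra ht1
    have ht2 : (1 : ℤ) ≤ t := by omega
    nlinarith [sq_nonneg ((l : ℤ) - h), sq_nonneg (3 * ((l : ℤ) + h) - 4 * (s + 2) + 2 * t)]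
  rw [ht0] at hq hc
  have hxy : (x : ℤ) = y := by
    have : ((x : ℤ) - y) ^ 2 ≤ 0 := by simpa using hc
    have := pow_eq_zero_iff (two_ne_zero) |>.1 (le_antisymm this (sq_nonneg _))
    linarith
  have hTR : 3 * ((l : ℤ) - h) ^ 2 + (3 * ((l : ℤ) + h) - 4 * (s + 2)) ^ 2 ≤ 0 := by
    rw [hxy] at hq
    nlinarith
  have hlh2 : (l : ℤ) = h := by
    have : ((l : ℤ) - h) ^ 2 ≤ 0 := by nlinarith [sq_nonneg (3 * ((l : ℤ) + h) - 4 * (s + 2))]
    have := pow_eq_zero_iff (two_ne_zero) |>.1 (le_antisymm this (sq_nonneg _))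
    linarith
  have hR : 3 * ((l : ℤ) + h) - 4 * (s + 2) = 0 := by
    have : (3 * ((l : ℤ) + h) - 4 * (s + 2)) ^ 2 ≤ 0 := by
      nlinarith [sq_nonneg ((l : ℤ) - h)]
    exact pow_eq_zero_iff (two_ne_zero) |>.1 (le_antisymm this (sq_nonneg _))
  -- `l = h = 2 x`, `x = y`
  rw [ht0] at ht
  have hlx : l = 2 * x := by omega
  have hhx : h = 2 * x := by omega
  have hyx : y = x := by omega
  have hsx : s + 2 = 3 * x := by omega
  -- the exponent divides `3 x`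
  have ra := H.ra
  have rb := H.rb
  rw [hlx, hyx] at ra
  rw [hhx] at rb
  have e3a : (3 * x) • a = 0 := by
    have q1 : (4 * x) • a = x • a := by
      calc (4 * x) • a = 2 • ((2 * x) • a) := by rw [← mul_nsmul']; congr 1; ring
        _ = (2 * x) • b := by rw [ra, ← mul_nsmul']
        _ = x • a := rb
    have q2 : (4 * x) • a = (3 * x) • a + x • a := by rw [← add_nsmul]; congr 1; ring
    rw [q2] at q1
    exact add_eq_right.1 q1
  have e3b : (3 * x) • b = 0 := by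
    have q1 : (4 * x) • b = x • b := by
      calc (4 * x) • b = 2 • ((2 * x) • b) := by rw [← mul_nsmul']; congr 1; ring
        _ = (2 * x) • a := by rw [rb, ← mul_nsmul']
        _ = x • b := ra
    have q2 : (4 * x) • b = (3 * x) • b + x • b := by rw [← add_nsmul]; congr 1; ring
    rw [q2] at q1
    exact add_eq_right.1 q1
  obtain ⟨i, j, _, e1⟩ := hab 1
  have e2 : (3 * x) • (1 : ZMod n) = 0 := by
    rw [← e1, nsmul_add, ← mul_nsmul', ← mul_nsmul', mul_comm (3 * x) i, mul_comm (3 * x) j,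
      mul_nsmul' _ i (3 * x), mul_nsmul' _ j (3 * x), e3a, e3b, nsmul_zero, nsmul_zero, add_zero]
  rw [nsmul_one] at e2
  have e4 : n ∣ 3 * x := (ZMod.natCast_eq_zero_iff _ _).1 (by exact_mod_cast e2)
  have e5 : n ≤ 3 * x := Nat.le_of_dvd (by omega) e4
  have e6 : n + x * x = 2 * x * (2 * x) := by rw [hlx, hhx, hyx] at h1; exact h1
  have e7 : 2 ≤ x := by omega
  nlinarith

end Pool.Agent.Lib.FF76
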