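import Pool.Agent.Lib.FF76.Two

set_option autoImplicit false

open Finset

namespace Pool.Agent.Lib.FF76

open Pool.Agent.Lib.MP_ffcda7_co (IsBasis HasBasis f g)

theorem exists_good (s : ℕ) (hs : 2 ≤ s) :
    HasBasis (ZMod ((s ^ 2 + 4 * s + 3) / 3)) 2 s := by
  have hcase : (∃ k, s + 2 = 3 * k) ∨ (∃ k, s + 2 = 3 * k + 1) ∨ (∃ k, s + 2 = 3 * k + 2) := by
    have h3 : (s + 2) % 3 < 3 := Nat.mod_lt _ (by norm_num)
    have h4 := Nat.div_add_mod (s + 2) 3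
    rcases Nat.lt_or_ge ((s + 2) % 3) 1 with h | h
    · exact Or.inl ⟨(s + 2) / 3, by omega⟩
    · rcases Nat.lt_or_ge ((s + 2) % 3) 2 with h' | h'
      · exact Or.inr (Or.inl ⟨(s + 2) / 3, by omega⟩)
      · exact Or.inr (Or.inr ⟨(s + 2) / 3, by omega⟩)
  rcases hcase with ⟨k, hk⟩ | ⟨k, hk⟩ | ⟨k, hk⟩
  · -- `d = 3 k`
    have hk2 : 2 ≤ k := by omega
    obtain ⟨m, rfl⟩ : ∃ m, k = m + 2 := ⟨k - 2, by omega⟩
    have hs' : s = 3 * m + 4 := by omega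
    subst hs'
    have hn : ((3 * m + 4) ^ 2 + 4 * (3 * m + 4) + 3) / 3 = 3 * m ^ 2 + 12 * m + 11 := by
      have : (3 * m + 4) ^ 2 + 4 * (3 * m + 4) + 3 = 3 * (3 * m ^ 2 + 12 * m + 11) + 2 := by ring
      omega
    rw [hn]
    have : NeZero (3 * m ^ 2 + 12 * m + 11) := ⟨by omega⟩
    have hz : ((3 * m ^ 2 + 12 * m + 11 : ℕ) : ZMod (3 * m ^ 2 + 12 * m + 11)) = 0 :=
      ZMod.natCast_self _
    push_cast at hz
    refine hasBasis_two_iff.2 ⟨((3 * m + 5 : ℕ) : ZMod _), 1, ?_⟩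
    refine basis_of_rel (l := 2 * m + 5) (h := 2 * m + 4) (x := m + 3) (y := m + 3)
      ⟨?_, ?_, by omega, by omega, by omega, by omega⟩ (by omega) (by omega) ?_
    · rw [nsmul_eq_mul, nsmul_eq_mul]; push_cast
      linear_combination 2 * hz
    · rw [nsmul_eq_mul, nsmul_eq_mul]; push_cast
      linear_combination -hz
    · intro q
      exact ⟨0, q.val, by simp⟩
  · -- `d = 3 k + 1`
    have hk2 : 1 ≤ k := by omega
    obtain ⟨m, rfl⟩ : ∃ m, k = m + 1 := ⟨k - 1, by omega⟩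
    have hs' : s = 3 * m + 2 := by omega
    subst hs'
    have hn : ((3 * m + 2) ^ 2 + 4 * (3 * m + 2) + 3) / 3 = 3 * m ^ 2 + 8 * m + 5 := by
      have : (3 * m + 2) ^ 2 + 4 * (3 * m + 2) + 3 = 3 * (3 * m ^ 2 + 8 * m + 5) := by ring
      omega
    rw [hn]
    have : NeZero (3 * m ^ 2 + 8 * m + 5) := ⟨by omega⟩
    have hz : ((3 * m ^ 2 + 8 * m + 5 : ℕ) : ZMod (3 * m ^ 2 + 8 * m + 5)) = 0 :=
      ZMod.natCast_self _
    push_cast at hz
    refine hasBasis_two_iff.2 ⟨1, ((3 * m + 4 : ℕ) : ZMod _), ?_⟩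
    refine basis_of_rel (l := 2 * m + 3) (h := 2 * m + 3) (x := m + 2) (y := m + 2)
      ⟨?_, ?_, by omega, by omega, by omega, by omega⟩ (by omega) (by omega) ?_
    · rw [nsmul_eq_mul, nsmul_eq_mul]; push_cast
      linear_combination -hz
    · rw [nsmul_eq_mul, nsmul_eq_mul]; push_cast
      linear_combination 2 * hz
    · intro q
      exact ⟨q.val, 0, by simp⟩
  · -- `d = 3 k + 2`
    have hk2 : 1 ≤ k := by omega
    obtain ⟨m, rfl⟩ : ∃ m, k = m + 1 := ⟨k - 1, by omega⟩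
    have hs' : s = 3 * m + 3 := by omega
    subst hs'
    have hn : ((3 * m + 3) ^ 2 + 4 * (3 * m + 3) + 3) / 3 = 3 * m ^ 2 + 10 * m + 8 := by
      have : (3 * m + 3) ^ 2 + 4 * (3 * m + 3) + 3 = 3 * (3 * m ^ 2 + 10 * m + 8) := by ring
      omega
    rw [hn]
    have : NeZero (3 * m ^ 2 + 10 * m + 8) := ⟨by omega⟩
    have hz : ((3 * m ^ 2 + 10 * m + 8 : ℕ) : ZMod (3 * m ^ 2 + 10 * m + 8)) = 0 :=
      ZMod.natCast_self _
    push_cast at hz
    refine hasBasis_two_iff.2 ⟨1, -((3 * m + 5 : ℕ) : ZMod _), ?_⟩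
    refine basis_of_rel (l := 2 * m + 3) (h := 2 * m + 3) (x := m + 1) (y := m + 1)
      ⟨?_, ?_, by omega, by omega, by omega, by omega⟩ (by omega) (by omega) ?_
    · rw [nsmul_eq_mul, nsmul_eq_mul]; push_cast
      linear_combination hz
    · rw [nsmul_eq_mul, nsmul_eq_mul]; push_cast
      linear_combination -2 * hz
    · intro q
      exact ⟨q.val, 0, by simp⟩

theorem f_two (s : ℕ) (hs : 2 ≤ s) : f 2 s = (s ^ 2 + 4 * s + 3) / 3 := by
  have hub : ∀ n ∈ {n | 1 ≤ n ∧ HasBasis (ZMod n) 2 s}, n ≤ (s ^ 2 + 4 * s + 3) / 3 := by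
    rintro n ⟨hn, hB⟩
    have := upper hs hn hB
    have h2 : (s + 2) ^ 2 = s ^ 2 + 4 * s + 4 := by ring
    omega
  apply le_antisymm
  · exact csSup_le' hub
  · exact le_csSup ⟨_, hub⟩ ⟨by have : 0 ≤ s ^ 2 := by positivity
                                omega, exists_good s hs⟩

theorem g_le_f (s : ℕ) (hs : 2 ≤ s) : g 2 s ≤ f 2 s := by
  rw [f_two s hs]
  by_contra hc
  push Not at hc
  have h1 : ¬ HasBasis (ZMod ((s ^ 2 + 4 * s + 3) / 3 + 1)) 2 s := by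
    intro hB
    have := upper hs (by omega) hB
    have h2 : (s + 2) ^ 2 = s ^ 2 + 4 * s + 4 := by ring
    omega
  have := g_lt_of_bad (by omega) h1
  omega

theorem no_form (R T : ℤ) (e : R ^ 2 + 3 * T ^ 2 = 40 ∨ R ^ 2 + 3 * T ^ 2 = 24) : False := by
  have e40 : R ^ 2 + 3 * T ^ 2 ≤ 40 := by omega
  have hT : T ^ 2 < 4 ^ 2 := by nlinarith [sq_nonneg R]
  have hR : R ^ 2 < 7 ^ 2 := by nlinarith [sq_nonneg T]
  have hT' := abs_lt.1 (abs_lt_of_sq_lt_sq hT (by norm_num))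
  have hR' := abs_lt.1 (abs_lt_of_sq_lt_sq hR (by norm_num))
  obtain ⟨hT1, hT2⟩ := hT'
  obtain ⟨hR1, hR2⟩ := hR'
  clear e40 hT hR
  interval_cases T <;> interval_cases R <;> norm_num at e

/-- No `s`-basis of two elements for `3 n = (s+2)^2 - 10`, `3 n = (s+2)^2 - 6`. -/
theorem bad_aux {G : Type} [AddCommGroup G] [Finite G] {n s m : ℕ}
    (hG : Nat.card G = n) (hm : m = 10 ∧ 10 ≤ s ∨ m = 6 ∧ 7 ≤ s)
    (hn : 3 * n + m = (s + 2) ^ 2) : ¬ HasBasis G 2 s := by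
  intro hB
  have hs7 : 7 ≤ s := by omega
  have h81 : 81 ≤ (s + 2) ^ 2 := by
    have := Nat.pow_le_pow_left (show 9 ≤ s + 2 by omega) 2
    omega
  have hn1 : 1 ≤ n := by omega
  obtain ⟨l, h, x, y, t, c, R, T, hxl, hyh, h1, h2, h3, hct, htl, hcc, hT, hR, e⟩ :=
    number_data hG hB
  clear hcc hT hR
  have hn' : (3 : ℤ) * n + m = (s + 2) ^ 2 := by exact_mod_cast hn
  have hm10 : (m : ℤ) ≤ 10 := by
    have : m ≤ 10 := by omega
    exact_mod_cast this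
  have hs7' : (7 : ℤ) ≤ s := by exact_mod_cast hs7
  have hlh : s + 2 < l + h := by
    by_contra hc2
    have h4 : (l : ℤ) + h ≤ s + 2 := by omega
    have h5 : (4 : ℤ) * (l * h) ≤ (s + 2) ^ 2 := by nlinarith [sq_nonneg ((l : ℤ) - h)]
    have h6 : (0 : ℤ) ≤ x * y := by positivity
    have e' : (n : ℤ) + x * y = l * h := by exact_mod_cast h1
    have h9 : (81 : ℤ) ≤ (s + 2) ^ 2 := by exact_mod_cast h81
    linarith
  have htd : t + 3 ≤ s + 2 := by omega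
  have hc2 : (c : ℤ) ^ 2 ≤ t ^ 2 := by
    have : c ^ 2 ≤ t ^ 2 := Nat.pow_le_pow_left hct 2
    exact_mod_cast this
  have hRT : 0 ≤ R ^ 2 + 3 * T ^ 2 := by positivity
  have ht0 : t = 0 := by
    by_contra ht1
    have ht2 : (1 : ℤ) ≤ t := by omega
    have ht3 : (t : ℤ) + 3 ≤ s + 2 := by exact_mod_cast htd
    have hneg : (t : ℤ) * ((s : ℤ) + 2 - t) ≤ m := by
      have e3 : ((2 * (s + 2) : ℤ) - t) ^ 2 = 4 * (s + 2) ^ 2 - 4 * (t * ((s : ℤ) + 2 - t)) -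
        3 * t ^ 2 := by ring
      rw [e3] at e
      linarith
    have h12 : (s : ℤ) + 2 - 1 ≤ t * ((s : ℤ) + 2 - t) := by
      have := mul_nonneg (by linarith : (0 : ℤ) ≤ t - 1)
          (by linarith : (0 : ℤ) ≤ (s : ℤ) + 2 - t - 1)
      have e4 : ((t : ℤ) - 1) * ((s : ℤ) + 2 - t - 1) = t * ((s : ℤ) + 2 - t) - (s + 2 - 1) := by
        ring
      linarith
    rcases hm with ⟨rfl, h10⟩ | ⟨rfl, h10⟩
    · have h11 : (10 : ℤ) ≤ s := by exact_mod_cast h10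
      push_cast at hneg
      linarith
    · push_cast at hneg
      linarith
  subst ht0
  have hc0 : c = 0 := by omega
  subst hc0
  have e2 : R ^ 2 + 3 * T ^ 2 = 4 * m := by
    push_cast at e
    linarith
  rcases hm with ⟨rfl, _⟩ | ⟨rfl, _⟩
  · exact no_form R T (Or.inl (by rw [e2]; norm_num))
  · exact no_form R T (Or.inr (by rw [e2]; norm_num))

/-- Strict inequality for `s ≥ 10` and `s = 7`. -/
theorem g_lt_f_large (s : ℕ) (hs : 10 ≤ s ∨ s = 7) : g 2 s < f 2 s := by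
  have hs2 : 2 ≤ s := by omega
  rw [f_two s hs2]
  have h2 : (s + 2) ^ 2 = s ^ 2 + 4 * s + 4 := by ring
  have h3 : 81 ≤ (s + 2) ^ 2 := by
    have := Nat.pow_le_pow_left (show 9 ≤ s + 2 by omega) 2
    omega
  have hmod : ((s + 2) ^ 2) % 3 = 0 ∨ ((s + 2) ^ 2) % 3 = 1 := by
    have : (s + 2) % 3 = 0 ∨ (s + 2) % 3 = 1 ∨ (s + 2) % 3 = 2 := by omega
    rcases this with h | h | h <;> simp [Nat.pow_mod, h]
  rcases hmod with h0 | h1
  · have : NeZero (((s + 2) ^ 2 - 6) / 3) := ⟨by omega⟩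
    have hb := bad_aux (n := ((s + 2) ^ 2 - 6) / 3) (s := s) (m := 6)
      (Nat.card_zmod _) (Or.inr ⟨rfl, by omega⟩) (by omega)
    have := g_lt_of_bad (by omega) hb
    omega
  · have hs10 : 10 ≤ s := by
      rcases hs with h | h
      · exact h
      · subst h; norm_num at h1
    have : NeZero (((s + 2) ^ 2 - 10) / 3) := ⟨by omega⟩
    have hb := bad_aux (n := ((s + 2) ^ 2 - 10) / 3) (s := s) (m := 10)
      (Nat.card_zmod _) (Or.inl ⟨rfl, by omega⟩) (by omega)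
    have := g_lt_of_bad (by omega) hb
    omega

end Pool.Agent.Lib.FF76
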